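import Pool.Agent.L7h57.RV.Stm

/-! Project RV (helper57, MP_2a1f98_al): parts COM and GRC, in general form: the commutator of
`c ∈ K d` and `w ∈ K e` is in `K (d + e - 1)` with leading term the bracket. -/

namespace Pool.Agent.L7h60.RV

open MvPolynomial Pool.Helper89.Rev Pool.Agent.L7h57.RV
open Pool.Helper89.Rev.FormalMap

variable {n : ℕ}

/-- congruent arguments in a series of order `d` -/
lemma subst_congr_gen {d e : ℕ} (he : 1 ≤ e) {f : MvPowerSeries (Fin n) ℂ} (hf : E d f)
    {a b : Fin n → MvPowerSeries (Fin n) ℂ} (ha : Z a) (hb : Z b)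
    (hab : ∀ i, E e (a i - b i)) :
    E (d + (e - 1)) (MvPowerSeries.subst a f - MvPowerSeries.subst b f) := by
  intro x hx
  rw [map_sub, sub_eq_zero, coeff_subst' ha, coeff_subst' hb]
  apply finsum_congr
  intro α
  by_cases hα : α.degree < d
  · rw [hf α hα, zero_mul, zero_mul]
  · have h2 := (Rel_mon (d := e) (fun i => ⟨ha i, hb i, by
      have h : 1 + (e - 1) = e := by omega
      rw [h]; exact hab i⟩) α).2.2 x (by omega)
    rw [map_sub, sub_eq_zero] at h2
    rw [h2]

lemma subst_id (f : MvPowerSeries (Fin n) ℂ) :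
    MvPowerSeries.subst (fun i : Fin n => (MvPowerSeries.X i : MvPowerSeries (Fin n) ℂ)) f = f := by
  change MvPowerSeries.subst MvPowerSeries.X f = f
  rw [MvPowerSeries.subst_self]; rfl

lemma Z_X : Z (fun i : Fin n => (MvPowerSeries.X i : MvPowerSeries (Fin n) ℂ)) :=
  (1 : FormalMap n).z

/-- the derivative part -/
noncomputable def DD (W : Fin n → MvPowerSeries (Fin n) ℂ) (P : MvPolynomial (Fin n) ℂ) :
    MvPowerSeries (Fin n) ℂ :=
  ∑ j, ((pderiv j P : MvPolynomial (Fin n) ℂ) : MvPowerSeries (Fin n) ℂ) * W j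

/-- the remainder of the first order Taylor expansion at the identity -/
noncomputable def TT (W : Fin n → MvPowerSeries (Fin n) ℂ) (P : MvPolynomial (Fin n) ℂ) :
    MvPowerSeries (Fin n) ℂ :=
  MvPowerSeries.subst (fun i => MvPowerSeries.X i + W i) (P : MvPowerSeries (Fin n) ℂ) -
    (P : MvPowerSeries (Fin n) ℂ) - DD W P

variable {W : Fin n → MvPowerSeries (Fin n) ℂ}

lemma Z_XW {q : ℕ} (hq : 1 ≤ q) (hW : ∀ i, E q (W i)) :
    Z (fun i => MvPowerSeries.X i + W i) := fun i => (Z_X i).add ((hW i).mono hq)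

lemma DD_add (P Q : MvPolynomial (Fin n) ℂ) : DD W (P + Q) = DD W P + DD W Q := by
  unfold DD
  rw [← Finset.sum_add_distrib]
  apply Finset.sum_congr rfl
  intro j _
  rw [map_add, MvPolynomial.coe_add, add_mul]

lemma DD_C (c : ℂ) : DD W (C c) = 0 := by
  unfold DD
  apply Finset.sum_eq_zero
  intro j _
  rw [pderiv_C, MvPolynomial.coe_zero, zero_mul]

lemma DD_mul_X (P : MvPolynomial (Fin n) ℂ) (k : Fin n) :
    DD W (P * X k) = DD W P * MvPowerSeries.X k + (P : MvPowerSeries (Fin n) ℂ) * W k := by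
  unfold DD
  have h : ∀ j ∈ (Finset.univ : Finset (Fin n)),
      ((pderiv j (P * X k) : MvPolynomial (Fin n) ℂ) : MvPowerSeries (Fin n) ℂ) * W j =
      ((pderiv j P : MvPolynomial (Fin n) ℂ) : MvPowerSeries (Fin n) ℂ) * W j *
        MvPowerSeries.X k + (if j = k then (P : MvPowerSeries (Fin n) ℂ) * W k else 0) := by
    intro j _
    rw [pderiv_mul, MvPolynomial.coe_add, MvPolynomial.coe_mul, MvPolynomial.coe_mul,
      MvPolynomial.coe_X]
    by_cases hjk : j = k
    · subst hjk
      rw [pderiv_X_self, if_pos rfl, MvPolynomial.coe_one]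
      ring
    · rw [pderiv_X_of_ne (fun h => hjk h.symm), if_neg hjk, MvPolynomial.coe_zero]
      ring
  rw [Finset.sum_congr rfl h, Finset.sum_add_distrib, Finset.sum_mul, Finset.sum_ite_eq']
  simp

lemma TT_add {q : ℕ} (hq : 1 ≤ q) (hW : ∀ i, E q (W i)) (P Q : MvPolynomial (Fin n) ℂ) :
    TT W (P + Q) = TT W P + TT W Q := by
  unfold TT
  rw [MvPolynomial.coe_add, MvPowerSeries.subst_add (Z_XW hq hW).hasSubst, DD_add]
  ring

lemma TT_zero {q : ℕ} (hq : 1 ≤ q) (hW : ∀ i, E q (W i)) : TT W 0 = 0 := by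
  have := TT_add hq hW 0 0
  rw [add_zero] at this
  exact left_eq_add.1 this

lemma TT_C {q : ℕ} (hq : 1 ≤ q) (hW : ∀ i, E q (W i)) (c : ℂ) : TT W (C c) = 0 := by
  unfold TT
  rw [MvPolynomial.coe_C, subst_C' (Z_XW hq hW), DD_C]
  ring

lemma TT_mul_X {q : ℕ} (hq : 1 ≤ q) (hW : ∀ i, E q (W i)) (P : MvPolynomial (Fin n) ℂ)
    (k : Fin n) : TT W (P * X k) = DD W P * W k + TT W P * (MvPowerSeries.X k + W k) := by
  unfold TT
  rw [MvPolynomial.coe_mul, MvPolynomial.coe_X, MvPowerSeries.subst_mul (Z_XW hq hW).hasSubst,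
    MvPowerSeries.subst_X (Z_XW hq hW).hasSubst, DD_mul_X]
  ring

lemma E_X (k : Fin n) : E 1 (MvPowerSeries.X k : MvPowerSeries (Fin n) ℂ) := Z_X k

lemma mono_aux {q : ℕ} (hq : 1 ≤ q) (hW : ∀ i, E q (W i)) (a : Fin n →₀ ℕ) (c : ℂ) :
    ∃ m, (monomial a c : MvPolynomial (Fin n) ℂ).IsHomogeneous m ∧
      E (m + 2 * (q - 1)) (TT W (monomial a c)) ∧ E (m + (q - 1)) (DD W (monomial a c)) := by
  refine MvPolynomial.induction_on_monomial (motive := fun P => ∃ m, P.IsHomogeneous m ∧
    E (m + 2 * (q - 1)) (TT W P) ∧ E (m + (q - 1)) (DD W P)) ?_ ?_ a c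
  · intro c
    refine ⟨0, isHomogeneous_C _ _, ?_, ?_⟩
    · rw [TT_C hq hW]; exact E_zero _
    · rw [DD_C]; exact E_zero _
  · rintro P k ⟨m, hm, h1, h2⟩
    refine ⟨m + 1, hm.mul (isHomogeneous_X _ _), ?_, ?_⟩
    · rw [TT_mul_X hq hW]
      apply E.add
      · have := h2.mul (hW k)
        have e : m + (q - 1) + q = m + 1 + 2 * (q - 1) := by omega
        rwa [e] at this
      · have := h1.mul ((E_X k).add ((hW k).mono hq))
        have e : m + 2 * (q - 1) + 1 = m + 1 + 2 * (q - 1) := by omega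
        rwa [e] at this
    · rw [DD_mul_X]
      apply E.add
      · have := h2.mul (E_X k)
        have e : m + (q - 1) + 1 = m + 1 + (q - 1) := by omega
        rwa [e] at this
      · have := (E_coe_hom hm).mul (hW k)
        have e : m + q = m + 1 + (q - 1) := by omega
        rwa [e] at this

/-- first order Taylor expansion with the second order error -/
lemma taylor2 {q : ℕ} (hq : 1 ≤ q) (hW : ∀ i, E q (W i)) {p : ℕ} {P : MvPolynomial (Fin n) ℂ}
    (hP : P.IsHomogeneous p) : E (p + 2 * (q - 1)) (TT W P) := by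
  have key : ∀ s : Finset (Fin n →₀ ℕ), s ⊆ P.support →
      E (p + 2 * (q - 1)) (TT W (∑ a ∈ s, monomial a (coeff a P))) := by
    intro s
    induction s using Finset.induction_on with
    | empty => intro _; rw [Finset.sum_empty, TT_zero hq hW]; exact E_zero _
    | insert a s ha ih =>
      intro hs
      rw [Finset.sum_insert ha, TT_add hq hW]
      apply E.add
      · have ha' : a ∈ P.support := hs (Finset.mem_insert_self a s)
        have hc : coeff a P ≠ 0 := mem_support_iff.1 ha'
        obtain ⟨m, hm, h1, _⟩ := mono_aux hq hW a (coeff a P)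
        have hd : a.degree = p := by
          by_contra hne
          exact hc (hP.coeff_eq_zero hne)
        have hm' : m = p := by
          have h2 : (monomial a (coeff a P) : MvPolynomial (Fin n) ℂ).IsHomogeneous p :=
            isHomogeneous_monomial _ hd
          refine hm.inj_right h2 ?_
          intro h0
          exact hc ((monomial_eq_zero).1 h0)
        rw [hm'] at h1
        exact h1
      · exact ih (fun x hx => hs (Finset.mem_insert_of_mem hx))
  have h := key P.support (Finset.Subset.refl _)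
  rwa [P.support_sum_monomial_coeff] at h

lemma E_pderiv {p : ℕ} {P : MvPolynomial (Fin n) ℂ} (hP : P.IsHomogeneous p) (j : Fin n) :
    E (p - 1) ((pderiv j P : MvPolynomial (Fin n) ℂ) : MvPowerSeries (Fin n) ℂ) :=
  E_coe_hom (hP.pderiv)

/-- composition of `c ∈ K d` and `w ∈ K e` modulo order `d + e` -/
lemma comp_expand {d e : ℕ} (hd : 2 ≤ d) (he : 2 ≤ e) {c w : G n} (hc : c ∈ K n d)
    (hw : w ∈ K n e) (i : Fin n) :
    E (d + e) (((c * w : G n) : FormalMap n).comp i - ((w : FormalMap n).comp i +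
      ((c : FormalMap n).comp i - MvPowerSeries.X i) +
      ((∑ j, pderiv j (gr d (c : FormalMap n) i) * gr e (w : FormalMap n) j :
        MvPolynomial (Fin n) ℂ) : MvPowerSeries (Fin n) ℂ))) := by
  set c' : FormalMap n := (c : FormalMap n) with hc'
  set w' : FormalMap n := (w : FormalMap n) with hw'
  set P := gr d c' i with hP
  have hPh : P.IsHomogeneous d := gr_hom d _ i
  set W : Fin n → MvPowerSeries (Fin n) ℂ := fun j => w'.comp j - MvPowerSeries.X j with hWd
  have hW : ∀ j, E e (W j) := fun j => hw j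
  have hXW : (fun j => MvPowerSeries.X j + W j) = w'.comp := by
    funext j
    simp only [hWd]
    ring
  set R : MvPowerSeries (Fin n) ℂ := c'.comp i - MvPowerSeries.X i - (P : MvPowerSeries (Fin n) ℂ)
    with hR
  have hRE : E (d + 1) R := K_expand hd hc i
  have h1 : E (d + e) (MvPowerSeries.subst w'.comp R - R) := by
    have := subst_congr_gen (e := e) (by omega) hRE w'.z Z_X (fun j => hW j)
    rw [subst_id] at this
    have e1 : d + 1 + (e - 1) = d + e := by omega
    rwa [e1] at this
  have h2 : E (d + e) (MvPowerSeries.subst w'.comp (P : MvPowerSeries (Fin n) ℂ) -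
      (P : MvPowerSeries (Fin n) ℂ) - DD W P) := by
    have := taylor2 (q := e) (by omega) hW hPh
    unfold TT at this
    rw [hXW] at this
    exact this.mono (by omega)
  have h3 : E (d + e) (DD W P - ((∑ j, pderiv j P * gr e w' j : MvPolynomial (Fin n) ℂ) :
      MvPowerSeries (Fin n) ℂ)) := by
    have e2 : ((∑ j, pderiv j P * gr e w' j : MvPolynomial (Fin n) ℂ) :
      MvPowerSeries (Fin n) ℂ) = ∑ j, ((pderiv j P : MvPolynomial (Fin n) ℂ) :
        MvPowerSeries (Fin n) ℂ) * (gr e w' j : MvPowerSeries (Fin n) ℂ) := by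
      rw [← MvPolynomial.coeToMvPowerSeries.ringHom_apply, map_sum]
      apply Finset.sum_congr rfl
      intro j _
      rw [map_mul]
      rfl
    rw [e2]
    unfold DD
    rw [← Finset.sum_sub_distrib]
    apply E.sum
    intro j _
    rw [← mul_sub]
    have h4 : E (e + 1) (W j - (gr e w' j : MvPowerSeries (Fin n) ℂ)) := K_expand he hw j
    have := (E_pderiv hPh j).mul h4
    have e3 : d - 1 + (e + 1) = d + e := by omega
    rwa [e3] at this
  have hcw : ((c * w : G n) : FormalMap n).comp i = w'.comp i +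
      MvPowerSeries.subst w'.comp (P : MvPowerSeries (Fin n) ℂ) +
      MvPowerSeries.subst w'.comp R := by
    rw [Units.val_mul, mul_comp]
    have e4 : c'.comp i = MvPowerSeries.X i + (P : MvPowerSeries (Fin n) ℂ) + R := by
      rw [hR]; ring
    rw [← hc', ← hw', e4, MvPowerSeries.subst_add w'.z.hasSubst,
      MvPowerSeries.subst_add w'.z.hasSubst, MvPowerSeries.subst_X w'.z.hasSubst]
  rw [hcw]
  have := (h1.add h2).add h3
  have e5 : MvPowerSeries.subst w'.comp R - R +
      (MvPowerSeries.subst w'.comp (P : MvPowerSeries (Fin n) ℂ) -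
      (P : MvPowerSeries (Fin n) ℂ) - DD W P) + (DD W P - ((∑ j, pderiv j P * gr e w' j :
      MvPolynomial (Fin n) ℂ) : MvPowerSeries (Fin n) ℂ)) =
      w'.comp i + MvPowerSeries.subst w'.comp (P : MvPowerSeries (Fin n) ℂ) +
      MvPowerSeries.subst w'.comp R - (w'.comp i + (c'.comp i - MvPowerSeries.X i) +
      ((∑ j, pderiv j P * gr e w' j : MvPolynomial (Fin n) ℂ) : MvPowerSeries (Fin n) ℂ)) := by
    rw [hR]; ring
  rw [e5] at this
  exact this

lemma br_hom {d e : ℕ} (hd : 2 ≤ d) (he : 2 ≤ e) {A B : VF n} (hA : HomT d A) (hB : HomT e B) :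
    HomT (d + e - 1) (br A B) := by
  intro i
  unfold br
  apply IsHomogeneous.sum
  intro j _
  apply IsHomogeneous.sub
  · have := (hA i).pderiv (i := j) |>.mul (hB j)
    have e1 : d - 1 + e = d + e - 1 := by omega
    rwa [e1] at this
  · have := (hB i).pderiv (i := j) |>.mul (hA j)
    have e1 : e - 1 + d = d + e - 1 := by omega
    rwa [e1] at this

/-- the difference of the two products modulo order `d + e` -/
lemma comm_expand {d e : ℕ} (hd : 2 ≤ d) (he : 2 ≤ e) {c w : G n} (hc : c ∈ K n d)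
    (hw : w ∈ K n e) (i : Fin n) :
    E (d + e) (((c * w : G n) : FormalMap n).comp i - ((w * c : G n) : FormalMap n).comp i -
      (br (gr d (c : FormalMap n)) (gr e (w : FormalMap n)) i : MvPowerSeries (Fin n) ℂ)) := by
  have h1 := comp_expand hd he hc hw i
  have h2 := comp_expand he hd hw hc i
  rw [Nat.add_comm e d] at h2
  have e1 : (br (gr d (c : FormalMap n)) (gr e (w : FormalMap n)) i :
      MvPowerSeries (Fin n) ℂ) =
      ((∑ j, pderiv j (gr d (c : FormalMap n) i) * gr e (w : FormalMap n) j :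
        MvPolynomial (Fin n) ℂ) : MvPowerSeries (Fin n) ℂ) -
      ((∑ j, pderiv j (gr e (w : FormalMap n) i) * gr d (c : FormalMap n) j :
        MvPolynomial (Fin n) ℂ) : MvPowerSeries (Fin n) ℂ) := by
    unfold br
    rw [Finset.sum_sub_distrib]
    rw [← MvPolynomial.coeToMvPowerSeries.ringHom_apply, map_sub]
    rfl
  have := h1.sub h2
  rw [e1]
  convert this using 1
  ring

theorem comm_mem {d e : ℕ} (hd : 2 ≤ d) (he : 2 ≤ e) {c w : G n} (hc : c ∈ K n d)
    (hw : w ∈ K n e) : c * w * c⁻¹ * w⁻¹ ∈ K n (d + e - 1) := by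
  have h : Cong (d + e - 1) ((c * w : G n) : FormalMap n) ((w * c : G n) : FormalMap n) := by
    intro i
    have h1 := (comm_expand hd he hc hw i).mono (d' := d + e - 1) (by omega)
    have h2 : E (d + e - 1) (br (gr d (c : FormalMap n)) (gr e (w : FormalMap n)) i :
        MvPowerSeries (Fin n) ℂ) :=
      E_coe_hom (br_hom hd he (gr_hom d _) (gr_hom e _) i)
    have := h1.add h2
    rwa [sub_add_cancel] at this
  have h2 := h.mul (Cong.refl (d + e - 1) (((w * c)⁻¹ : G n) : FormalMap n))
  rw [← Units.val_mul, ← Units.val_mul, mul_inv_cancel] at h2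
  have e1 : c * w * c⁻¹ * w⁻¹ = c * w * (w * c)⁻¹ := by group
  rw [e1]
  exact h2

theorem comm_gr {d e : ℕ} (hd : 2 ≤ d) (he : 2 ≤ e) {c w : G n} (hc : c ∈ K n d)
    (hw : w ∈ K n e) : gr (d + e - 1) ((c * w * c⁻¹ * w⁻¹ : G n) : FormalMap n) =
      br (gr d (c : FormalMap n)) (gr e (w : FormalMap n)) := by
  have hz := comm_mem hd he hc hw
  set z : G n := c * w * c⁻¹ * w⁻¹ with hzd
  have hzwc : c * w = z * (w * c) := by rw [hzd]; group
  apply gr_unique (by omega) _ (br_hom hd he (gr_hom d _) (gr_hom e _))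
  intro i
  have h1 := comm_expand hd he hc hw i
  have hwc : ∀ j, E 2 (((w * c : G n) : FormalMap n).comp j - MvPowerSeries.X j) := by
    intro j
    have : w * c ∈ K n 2 := (K n 2).mul_mem (K_mono he hw) (K_mono hd hc)
    exact this j
  have hzE : E (d + e - 1) ((z : FormalMap n).comp i - MvPowerSeries.X i) := hz i
  have h2 := subst_congr_two hzE ((w * c : G n) : FormalMap n).z Z_X hwc
  rw [subst_id] at h2
  have e0 : d + e - 1 + 1 = d + e := by omega
  rw [e0] at h2 ⊢
  have e1 : ((c * w : G n) : FormalMap n).comp i = ((w * c : G n) : FormalMap n).comp i +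
      MvPowerSeries.subst ((w * c : G n) : FormalMap n).comp
        ((z : FormalMap n).comp i - MvPowerSeries.X i) := by
    rw [hzwc, Units.val_mul z, mul_comp, MvPowerSeries.subst_sub
      ((w * c : G n) : FormalMap n).z.hasSubst, MvPowerSeries.subst_X
      ((w * c : G n) : FormalMap n).z.hasSubst]
    ring
  rw [e1] at h1
  have := h1.sub h2
  convert this using 1
  ring

theorem s_COM : S_COM := fun _ _ _ hd he _ _ hc hw => comm_mem hd he hc hw

theorem s_GRC : S_GRC := by
  intro n d hd c w hc hw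
  have e : 2 + d - 1 = d + 1 := by omega
  have h1 := comm_mem (le_refl 2) hd hc hw
  have h2 := comm_gr (le_refl 2) hd hc hw
  rw [e] at h1 h2
  exact ⟨h1, h2⟩

end Pool.Agent.L7h60.RV
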