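import Pool.Agent.L7h57.RV.Stm

/-! Project RV (helper57, MP_2a1f98_al): part STEP, one step of the successive approximation of a
formal map by a product of conjugates of involutions. -/

namespace Pool.Agent.L7h60.RV

open MvPolynomial Pool.Helper89.Rev Pool.Agent.L7h57.RV

/-! ### an abelian normal subgroup and products of commutators -/

section grp
variable {Q : Type*} [Group Q]

/-- the products of commutators that are obtained by moving the elements of the list -/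
def SS (A : Subgroup Q) : List Q → Set Q
  | [] => {1}
  | s :: l => {x | ∃ w ∈ A, ∃ y ∈ SS A l, x = (w * s * w⁻¹ * s⁻¹) * (s * y * s⁻¹)}

variable {A : Subgroup Q}

theorem cm_mem (hn : A.Normal) {w : Q} (hw : w ∈ A) (s : Q) : w * s * w⁻¹ * s⁻¹ ∈ A := by
  have h : w * s * w⁻¹ * s⁻¹ = w * (s * w⁻¹ * s⁻¹) := by group
  rw [h]
  exact A.mul_mem hw (hn.conj_mem _ (A.inv_mem hw) s)

theorem SS_sub (hn : A.Normal) (l : List Q) : ∀ x ∈ SS A l, x ∈ A := by
  induction l with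
  | nil =>
    intro x hx
    have h : x = 1 := hx
    rw [h]; exact A.one_mem
  | cons s l ih =>
    rintro x ⟨w, hw, y, hy, rfl⟩
    exact A.mul_mem (cm_mem hn hw s) (hn.conj_mem _ (ih y hy) s)

theorem SS_one (l : List Q) : (1 : Q) ∈ SS A l := by
  induction l with
  | nil => rfl
  | cons s l ih => exact ⟨1, A.one_mem, 1, ih, by group⟩

theorem cm_mul (hn : A.Normal) (hA : ∀ a ∈ A, ∀ b ∈ A, a * b = b * a) {w u : Q} (hw : w ∈ A)
    (hu : u ∈ A) (s : Q) : (w * u) * s * (w * u)⁻¹ * s⁻¹ =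
      (w * s * w⁻¹ * s⁻¹) * (u * s * u⁻¹ * s⁻¹) := by
  have h := hA _ (cm_mem hn hu s) _ (hn.conj_mem _ (A.inv_mem hw) s)
  calc (w * u) * s * (w * u)⁻¹ * s⁻¹ = w * ((u * s * u⁻¹ * s⁻¹) * (s * w⁻¹ * s⁻¹)) := by group
    _ = w * ((s * w⁻¹ * s⁻¹) * (u * s * u⁻¹ * s⁻¹)) := by rw [h]
    _ = _ := by group

theorem SS_mul (hn : A.Normal) (hA : ∀ a ∈ A, ∀ b ∈ A, a * b = b * a) (l : List Q) :
    ∀ x ∈ SS A l, ∀ y ∈ SS A l, x * y ∈ SS A l := by
  induction l with
  | nil =>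
    intro x hx y hy
    have h1 : x = 1 := hx
    have h2 : y = 1 := hy
    rw [h1, h2, one_mul]
    rfl
  | cons s l ih =>
    rintro _ ⟨w, hw, x, hx, rfl⟩ _ ⟨u, hu, y, hy, rfl⟩
    refine ⟨w * u, A.mul_mem hw hu, x * y, ih x hx y hy, ?_⟩
    have h1 := hA _ (hn.conj_mem _ (SS_sub hn l x hx) s) _ (cm_mem hn hu s)
    rw [cm_mul hn hA hw hu s]
    calc (w * s * w⁻¹ * s⁻¹) * (s * x * s⁻¹) * ((u * s * u⁻¹ * s⁻¹) * (s * y * s⁻¹))
        = (w * s * w⁻¹ * s⁻¹) * ((s * x * s⁻¹) * (u * s * u⁻¹ * s⁻¹)) * (s * y * s⁻¹) := by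
          group
      _ = (w * s * w⁻¹ * s⁻¹) * ((u * s * u⁻¹ * s⁻¹) * (s * x * s⁻¹)) * (s * y * s⁻¹) := by
          rw [h1]
      _ = _ := by group

theorem SS_inv (hn : A.Normal) (hA : ∀ a ∈ A, ∀ b ∈ A, a * b = b * a) (l : List Q) :
    ∀ x ∈ SS A l, x⁻¹ ∈ SS A l := by
  induction l with
  | nil =>
    intro x hx
    have h1 : x = 1 := hx
    rw [h1, inv_one]
    rfl
  | cons s l ih =>
    rintro _ ⟨w, hw, x, hx, rfl⟩
    refine ⟨w⁻¹, A.inv_mem hw, x⁻¹, ih x hx, ?_⟩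
    have h1 := hA _ (hn.conj_mem _ (A.inv_mem (SS_sub hn l x hx)) s) _
      (cm_mem hn (A.inv_mem hw) s)
    have h2 := cm_mul hn hA hw (A.inv_mem hw) s
    have h3 : (w * s * w⁻¹ * s⁻¹)⁻¹ = w⁻¹ * s * w⁻¹⁻¹ * s⁻¹ := by
      rw [inv_eq_iff_mul_eq_one, ← h2]
      group
    rw [mul_inv_rev, h3]
    calc (s * x * s⁻¹)⁻¹ * (w⁻¹ * s * w⁻¹⁻¹ * s⁻¹)
        = (s * x⁻¹ * s⁻¹) * (w⁻¹ * s * w⁻¹⁻¹ * s⁻¹) := by group
      _ = _ := h1

/-- the elements all of whose commutators with `A` are in `SS` -/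
def TG (hn : A.Normal) (hA : ∀ a ∈ A, ∀ b ∈ A, a * b = b * a) (l : List Q) : Subgroup Q where
  carrier := {γ | ∀ v ∈ A, v * γ * v⁻¹ * γ⁻¹ ∈ SS A l}
  mul_mem' {a b} ha hb := by
    intro v hv
    have h1 := ha v hv
    have h2 := hb v hv
    have h3 := ha _ (SS_sub hn l _ h2)
    have e : v * (a * b) * v⁻¹ * (a * b)⁻¹ = (v * a * v⁻¹ * a⁻¹) *
        (((v * b * v⁻¹ * b⁻¹) * a * (v * b * v⁻¹ * b⁻¹)⁻¹ * a⁻¹)⁻¹ *
          (v * b * v⁻¹ * b⁻¹)) := by group
    rw [e]
    exact SS_mul hn hA l _ h1 _ (SS_mul hn hA l _ (SS_inv hn hA l _ h3) _ h2)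
  one_mem' := by
    intro v _
    have e : v * 1 * v⁻¹ * 1⁻¹ = 1 := by group
    rw [e]
    exact SS_one l
  inv_mem' {a} ha := by
    intro v hv
    have h : a⁻¹ * v * a ∈ A := by
      have := hn.conj_mem v hv a⁻¹
      rwa [inv_inv] at this
    have h1 := SS_inv hn hA l _ (ha _ h)
    have e : v * a⁻¹ * v⁻¹ * (a⁻¹)⁻¹ =
        ((a⁻¹ * v * a) * a * (a⁻¹ * v * a)⁻¹ * a⁻¹)⁻¹ := by group
    rw [e]
    exact h1

theorem mem_TG (hn : A.Normal) (hA : ∀ a ∈ A, ∀ b ∈ A, a * b = b * a) (l : List Q) :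
    ∀ t ∈ l, t ∈ TG hn hA l := by
  induction l with
  | nil => intro t ht; exact absurd ht List.not_mem_nil
  | cons s l ih =>
    have hs : s ∈ TG hn hA (s :: l) := fun v hv => ⟨v, hv, 1, SS_one l, by group⟩
    intro t ht
    rcases List.mem_cons.1 ht with rfl | ht
    · exact hs
    · have h : s * t * s⁻¹ ∈ TG hn hA (s :: l) := by
        intro v hv
        have hv' : s⁻¹ * v * s ∈ A := by
          have := hn.conj_mem v hv s⁻¹
          rwa [inv_inv] at this
        exact ⟨1, A.one_mem, _, ih t ht _ hv', by group⟩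
      have e : t = s⁻¹ * (s * t * s⁻¹) * s := by group
      rw [e]
      exact (TG hn hA (s :: l)).mul_mem ((TG hn hA (s :: l)).mul_mem
        ((TG hn hA (s :: l)).inv_mem hs) h) hs

theorem SS_real {r : ℕ} : ∀ (t : Fin r → Q), ∀ x ∈ SS A (List.ofFn t),
    ∃ w : Fin r → Q, (∀ j, w j ∈ A) ∧
      (List.ofFn (fun j => w j * t j * (w j)⁻¹)).prod = x * (List.ofFn t).prod := by
  induction r with
  | zero =>
    intro t x hx
    rw [List.ofFn_zero] at hx
    have h : x = 1 := hx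
    refine ⟨fun _ => 1, fun _ => A.one_mem, ?_⟩
    rw [h]
    simp
  | succ r ih =>
    intro t x hx
    rw [List.ofFn_succ] at hx
    obtain ⟨u, hu, y, hy, rfl⟩ := hx
    obtain ⟨w', hw', hp⟩ := ih (fun i => t i.succ) y hy
    refine ⟨Fin.cons u w', ?_, ?_⟩
    · intro j
      refine Fin.cases ?_ (fun i => ?_) j
      · rw [Fin.cons_zero]; exact hu
      · rw [Fin.cons_succ]; exact hw' i
    · rw [List.ofFn_succ, List.prod_cons]
      simp only [Fin.cons_zero, Fin.cons_succ]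
      rw [hp, List.ofFn_succ (f := t), List.prod_cons]
      group

end grp

theorem s_STEP (h1 : S_COM) (h2 : S_GRC) : S_STEP := by
  intro n r t ht d hd F hF hgr
  set e := max 3 (d - 1) with he
  have he3 : 3 ≤ e := le_max_left _ _
  have hed : d - 1 ≤ e := le_max_right _ _
  have hed' : e ≤ d := by omega
  have he2 : d + 1 ≤ e + e - 1 := by omega
  have he4 : 4 ≤ d → e = d - 1 := by omega
  have hd2 : 2 ≤ d := by omega
  set κ : G n := F * ((List.ofFn t).prod)⁻¹ with hκ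
  let π : G n →* G n ⧸ K n (d + 1) := QuotientGroup.mk' (K n (d + 1))
  have hπs : Function.Surjective π := QuotientGroup.mk'_surjective _
  have hπ1 : ∀ x : G n, π x = 1 ↔ x ∈ K n (d + 1) := fun x => QuotientGroup.eq_one_iff x
  set A : Subgroup (G n ⧸ K n (d + 1)) := (K n e).map π with hAdef
  have hn : A.Normal := (K_normal e).map π hπs
  have hA : ∀ a ∈ A, ∀ b ∈ A, a * b = b * a := by
    rintro _ ⟨a, ha, rfl⟩ _ ⟨b, hb, rfl⟩
    have hab : a * b * a⁻¹ * b⁻¹ ∈ K n (d + 1) :=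
      K_mono he2 (h1 n e e (by omega) (by omega) a b ha hb)
    have h := (hπ1 _).2 hab
    rw [map_mul, map_mul, map_mul, map_inv, map_inv, mul_inv_eq_one, mul_inv_eq_iff_eq_mul] at h
    exact h
  set l : List (G n ⧸ K n (d + 1)) := List.ofFn (fun j => π (t j)) with hl
  have hT : ∀ γ ∈ Subgroup.closure (Set.range t), π γ ∈ TG hn hA l := by
    intro γ hγ
    have h : Subgroup.closure (Set.range t) ≤ (TG hn hA l).comap π := by
      rw [Subgroup.closure_le]
      rintro _ ⟨j, rfl⟩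
      apply mem_TG hn hA l
      rw [hl, List.mem_ofFn]
      exact ⟨j, rfl⟩
    exact h hγ
  -- the graded pieces that can be reached
  have key : ∀ x : VF n, x ∈ Submodule.span ℂ (GenSet t d) →
      ∃ m ∈ K n d, gr d (m : FormalMap n) = x ∧ π m ∈ SS A l := by
    intro x hx
    induction hx using Submodule.closure_induction with
    | zero => exact ⟨1, (K n d).one_mem, gr_one hd2, by rw [map_one]; exact SS_one l⟩
    | add x y _ _ hx hy =>
      obtain ⟨m, hm, hmx, hmS⟩ := hx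
      obtain ⟨m', hm', hmy, hmS'⟩ := hy
      refine ⟨m * m', (K n d).mul_mem hm hm', ?_, ?_⟩
      · rw [gr_mul hd2 hm hm', hmx, hmy]
      · rw [map_mul]
        exact SS_mul hn hA l _ hmS _ hmS'
    | smul_mem c x hx =>
      rcases hx with ⟨j, ε, hε, rfl⟩ | ⟨hd4, γ, hγ, hγ2, D, hD, rfl⟩
      · have hcε : HomT d (c • ε) := by
          intro i
          have h : (c • ε) i = C c * ε i := by
            rw [Pi.smul_apply, MvPolynomial.smul_eq_C_mul]
          rw [h]
          exact (hε i).C_mul c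
        obtain ⟨k, hk, hke⟩ := exists_gr hd2 hcε
        obtain ⟨m1, g1⟩ := gr_commutator hd2 hk (ht j) rfl hke
        refine ⟨_, m1, ?_, ?_⟩
        · rw [g1, ← actL_apply, ← actL_apply, map_smul, smul_sub]
        · have h := hT (t j) (Subgroup.subset_closure ⟨j, rfl⟩) (π k)
            ⟨k, K_mono hed' hk, rfl⟩
          rw [map_mul, map_mul, map_mul, map_inv, map_inv]
          exact h
      · have hcD : HomT (d - 1) (-(c • D)) := by
          intro i
          have h : (-(c • D)) i = C (-c) * D i := by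
            rw [Pi.neg_apply, Pi.smul_apply, MvPolynomial.smul_eq_C_mul, map_neg, neg_mul]
          rw [h]
          exact (hD i).C_mul (-c)
        obtain ⟨v, hv, hve⟩ := exists_gr (by omega) hcD
        obtain ⟨m1, g1⟩ := h2 n (d - 1) (by omega) γ v hγ2 hv
        have ed : d - 1 + 1 = d := by omega
        rw [ed] at m1 g1
        have ev : v * γ * v⁻¹ * γ⁻¹ = (γ * v * γ⁻¹ * v⁻¹)⁻¹ := by group
        refine ⟨v * γ * v⁻¹ * γ⁻¹, ?_, ?_, ?_⟩
        · rw [ev]; exact (K n d).inv_mem m1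
        · rw [ev, gr_inv hd2 m1, g1, hve]
          funext i
          unfold br
          simp only [Pi.neg_apply, Pi.smul_apply, map_neg]
          rw [← Finset.sum_neg_distrib, Finset.smul_sum]
          apply Finset.sum_congr rfl
          intro j _
          rw [Derivation.map_smul]
          simp only [MvPolynomial.smul_eq_C_mul]
          ring
        · have h := hT γ hγ (π v) ⟨v, K_mono (le_of_eq (he4 hd4)) hv, rfl⟩
          rw [map_mul, map_mul, map_mul, map_inv, map_inv]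
          exact h
  obtain ⟨m, hm, hmg, hmS⟩ := key _ hgr
  have hκm : κ * m⁻¹ ∈ K n (d + 1) := by
    apply mem_K_succ hd2 ((K n d).mul_mem hF ((K n d).inv_mem hm))
    rw [gr_mul hd2 hF ((K n d).inv_mem hm), gr_inv hd2 hm, hmg, add_neg_cancel]
  have hκπ : π κ = π m := by
    have h := (hπ1 _).2 hκm
    rw [map_mul, map_inv, mul_inv_eq_one] at h
    exact h
  rw [← hκπ] at hmS
  obtain ⟨w', hw', hp⟩ := SS_real (fun j => π (t j)) (π κ) hmS
  have hlift : ∀ j, ∃ w : G n, w ∈ K n e ∧ π w = w' j := fun j => hw' j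
  choose w hw hwπ using hlift
  refine ⟨w, fun j => K_mono he3 (hw j), fun j => K_mono hed (hw j), ?_⟩
  rw [← hπ1, map_mul, map_inv, mul_inv_eq_one, map_list_prod, List.map_ofFn]
  have e1 : (⇑π ∘ fun j => w j * t j * (w j)⁻¹) = fun j => w' j * π (t j) * (w' j)⁻¹ := by
    funext j
    simp only [Function.comp, map_mul, map_inv, hwπ]
  rw [e1, hp, hκ, map_mul, map_inv, map_list_prod, List.map_ofFn]
  have e2 : (⇑π ∘ t) = fun j => π (t j) := rfl
  rw [e2]
  group

end Pool.Agent.L7h60.RV
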